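import Pool.Agent.Y602.TD.Apex

set_option autoImplicit false

/-!
# Toroidal graphs cannot be transduced from apex graphs

`Transducible 𝒞 𝒟` is the relation of the problem file for classes of finite graphs, see
`Pool/Agent/Helper448/PDefs.lean`. The classes `ApexGraphs k` and `SubcubicToroidalGraphs` are
defined in `Pool/Agent/Y602/TD/Apex.lean`.
-/

namespace Pool.Agent.Results.MP_ec8146_lc.NotFromApexGraphs

open Pool.Agent.Helper448.TDefs Pool.Agent.Helper448.PDefs Pool.Agent.Y602.TD

/-- (1) Transducibility is transitive, and the toroidal graphs of maximum degree at most three are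
not transducible from any class that is transducible from the class of the planar graphs.
(2) For every `k` the class of the `k`-apex graphs is transducible from the class of the planar
graphs, so the toroidal graphs of maximum degree at most three, hence all toroidal graphs, are not
transducible from it. -/
theorem result :
    ((∀ 𝒞 𝒟 ℰ : GraphClass, Transducible 𝒞 𝒟 → Transducible 𝒟 ℰ → Transducible 𝒞 ℰ) ∧
      ∀ 𝒟 : GraphClass, Transducible 𝒟 PlanarGraphs →
        ¬ Transducible SubcubicToroidalGraphs 𝒟) ∧
    ∀ k : ℕ, Transducible (ApexGraphs k) PlanarGraphs ∧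
      ¬ Transducible SubcubicToroidalGraphs (ApexGraphs k) ∧
      ¬ Transducible ToroidalGraphs (ApexGraphs k) := by
  refine ⟨⟨fun _ _ _ => trans, fun _ => not_from⟩, fun k => ?_⟩
  have h := not_from (apex_transducible k)
  refine ⟨apex_transducible k, h, ?_⟩
  rintro ⟨c, ψ, h2⟩
  exact h ⟨c, ψ, fun W _ H hH => h2 W H hH.1⟩

end Pool.Agent.Results.MP_ec8146_lc.NotFromApexGraphs
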